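import Pool.Agent.H646.SSR.Tree

/-!
# Semistationary reflection refutes `□(κ, ω₁)` at every regular `κ ≥ ω₂`

The definitions are in `Pool/Agent/H646/SSR/Defs.lean`; all of them are about sets of ordinals.

* `Square κ` is `□(κ, ω₁)` as in the problem file.
* `SemistationaryReflection` is Shelah's principle SSR: every stationary subset of `[μ]^{ℵ₀}`
  (`μ ≥ ω₂` regular) that is closed upward under `x ⊑ y :⇔ x ⊆ y ∧ x ∩ ω₁ = y ∩ ω₁` reflects to some
  `W ⊆ μ` with `ω₁ ⊆ W` and `|W| = ℵ₁`.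

The form of SSR in the problem file speaks of sets closed upward under a smaller relation `⊑*`
(a subrelation of `⊑` when read, as in the literature, with the clause `x ⊆ y`).  It implies
the form used here, see `ssr_of_star` below, so that the theorem also holds for it.
-/

namespace Pool.Agent.Results.MP_aee6d4_lc.SSRNoSquare

open Cardinal Ordinal Set Pool.Agent.H646.SSR

universe u

/-- strict supremum of a set of ordinals -/
noncomputable def ssup (x : Set Ordinal.{u}) : Ordinal.{u} := sSup ((fun α => α + 1) '' x)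

/-- the relation `⊑*` of the problem file, together with the clause `x ⊆ y` -/
def SubStar (x y : Set Ordinal.{u}) : Prop :=
  x ⊆ y ∧ x ∩ Iio ω₁ = y ∩ Iio ω₁ ∧ ssup x = ssup y ∧
    ∀ γ ∈ x, γ.cof = ℵ₁ → ssup (x ∩ Iio γ) = ssup (y ∩ Iio γ)

/-- the form of SSR with `⊑*` -/
def SSRStar : Prop :=
  ∀ μ : Cardinal.{u}, μ.IsRegular → ℵ_ 2 ≤ μ →
    ∀ S ⊆ Ctbl (Iio μ.ord), IsStatCtbl (Iio μ.ord) S →
      (∀ x ∈ S, ∀ y ∈ Ctbl (Iio μ.ord), SubStar x y → y ∈ S) →
      ∃ W ⊆ Iio μ.ord, #W = ℵ₁ ∧ Iio ω₁ ⊆ W ∧ IsStatCtbl W (S ∩ Ctbl W)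

/-- the form of SSR with `⊑*` implies the form used in `result` -/
theorem ssr_of_star (h : SSRStar.{u}) : SemistationaryReflection.{u} :=
  fun μ hμ hμ2 S hS hst hup =>
    h μ hμ hμ2 S hS hst fun x hx y hy hxy => hup x hx y hy ⟨hxy.1, hxy.2.1⟩

/-- **SSR implies that `□(κ, ω₁)` fails for every regular `κ ≥ ω₂`.** -/
theorem result (hSSR : SemistationaryReflection.{u}) (κ : Cardinal.{u}) (hκ : κ.IsRegular)
    (h2 : ℵ_ 2 ≤ κ) : ¬ Square κ :=
  main hSSR κ hκ h2

end Pool.Agent.Results.MP_aee6d4_lc.SSRNoSquare
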